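import Mathlib

set_option autoImplicit false

namespace Pool.Agent.H.MP_58bd73_nt

open PowerSeries Finset Filter Topology

noncomputable def T (N : ℕ) : ℤ⟦X⟧ := ∏ k ∈ range N, (1 - X ^ 2 ^ k) ^ 2

noncomputable def t (n : ℕ) : ℤ := coeff n (T (n + 1))

lemma stab (n N M : ℕ) (hN : n < 2 ^ N) (hM : N ≤ M) : coeff n (T M) = coeff n (T N) := by
  induction M, hM using Nat.le_induction with
  | base => rfl
  | succ M hM ih =>
    have h : n < 2 ^ M := hN.trans_le (Nat.pow_le_pow_right (by norm_num) hM)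
    rw [T, prod_range_succ, ← T, show T M * (1 - X ^ 2 ^ M) ^ 2 =
      T M + X ^ 2 ^ M * (T M * (X ^ 2 ^ M - 2)) by ring, map_add, coeff_X_pow_mul',
      if_neg (by omega), add_zero, ih]

lemma t_eq (n M : ℕ) (h : n + 1 ≤ M) : t n = coeff n (T M) :=
  (stab n (n + 1) M ((Nat.lt_succ_self n).trans (Nat.lt_pow_self (by norm_num))) h).symm

lemma T_succ (N : ℕ) : T (N + 1) = expand 2 two_ne_zero ((1 + X) * T N) +
    X * expand 2 two_ne_zero (((-2 : ℤ) : ℤ⟦X⟧) * T N) := by
  rw [T, prod_range_succ', map_mul, map_mul, T, map_prod]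
  simp only [map_sub, map_add, map_one, map_pow, expand_X, ← pow_mul, ← pow_succ', map_intCast]
  push_cast
  ring

lemma t_odd (n : ℕ) : -2 * t n = t (2 * n + 1) := by
  rw [t_eq n (2 * n + 1) (by omega), t, T_succ (2 * n + 1), map_add, coeff_succ_X_mul, coeff_expand_mul,
    coeff_expand_of_not_dvd _ _ _ (by omega), zero_add, ← zsmul_eq_mul, map_zsmul, smul_eq_mul]

lemma t_even (n : ℕ) : t (2 * n + 2) = t (n + 1) + t n := by
  rw [t_eq n (2 * n + 2) (by omega), t_eq (n + 1) (2 * n + 2) (by omega), t, T_succ (2 * n + 2),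
    map_add, coeff_succ_X_mul, coeff_expand_of_not_dvd _ _ _ (show ¬ 2 ∣ 2 * n + 1 by omega), add_zero,
    show 2 * n + 2 = 2 * (n + 1) by ring, coeff_expand_mul, add_mul, one_mul, map_add,
    coeff_succ_X_mul]

lemma t_odd' (a n : ℕ) (h : a = 2 * n + 1) : t a = -2 * t n := by rw [h, t_odd]

lemma t_even' (a b n : ℕ) (h : a = 2 * n + 2) (hb : b = n + 1) : t a = t b + t n := by
  rw [h, hb, t_even]

lemma rel (M : ℕ) : t (512 * M + 512) + 13 * t (512 * M + 542) + 48 * t (512 * M + 836) = 0 := by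
  have : t (2 * M + 2) = t (1 * M + 1) + t (1 * M + 0) :=
    t_even' _ _ _ (by ring) (by ring)
  have : t (2 * M + 1) = -2 * t (1 * M + 0) :=
    t_odd' _ _ (by ring)
  have : t (4 * M + 4) = t (2 * M + 2) + t (2 * M + 1) :=
    t_even' _ _ _ (by ring) (by ring)
  have : t (4 * M + 3) = -2 * t (2 * M + 1) :=
    t_odd' _ _ (by ring)
  have : t (8 * M + 8) = t (4 * M + 4) + t (4 * M + 3) :=
    t_even' _ _ _ (by ring) (by ring)
  have : t (8 * M + 7) = -2 * t (4 * M + 3) :=
    t_odd' _ _ (by ring)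
  have : t (16 * M + 16) = t (8 * M + 8) + t (8 * M + 7) :=
    t_even' _ _ _ (by ring) (by ring)
  have : t (16 * M + 15) = -2 * t (8 * M + 7) :=
    t_odd' _ _ (by ring)
  have : t (32 * M + 32) = t (16 * M + 16) + t (16 * M + 15) :=
    t_even' _ _ _ (by ring) (by ring)
  have : t (32 * M + 31) = -2 * t (16 * M + 15) :=
    t_odd' _ _ (by ring)
  have : t (64 * M + 64) = t (32 * M + 32) + t (32 * M + 31) :=
    t_even' _ _ _ (by ring) (by ring)
  have : t (64 * M + 63) = -2 * t (32 * M + 31) :=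
    t_odd' _ _ (by ring)
  have : t (128 * M + 128) = t (64 * M + 64) + t (64 * M + 63) :=
    t_even' _ _ _ (by ring) (by ring)
  have : t (128 * M + 127) = -2 * t (64 * M + 63) :=
    t_odd' _ _ (by ring)
  have : t (256 * M + 256) = t (128 * M + 128) + t (128 * M + 127) :=
    t_even' _ _ _ (by ring) (by ring)
  have : t (256 * M + 255) = -2 * t (128 * M + 127) :=
    t_odd' _ _ (by ring)
  have : t (512 * M + 512) = t (256 * M + 256) + t (256 * M + 255) :=
    t_even' _ _ _ (by ring) (by ring)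
  have : t (32 * M + 33) = -2 * t (16 * M + 16) :=
    t_odd' _ _ (by ring)
  have : t (64 * M + 67) = -2 * t (32 * M + 33) :=
    t_odd' _ _ (by ring)
  have : t (128 * M + 135) = -2 * t (64 * M + 67) :=
    t_odd' _ _ (by ring)
  have : t (256 * M + 271) = -2 * t (128 * M + 135) :=
    t_odd' _ _ (by ring)
  have : t (64 * M + 66) = t (32 * M + 33) + t (32 * M + 32) :=
    t_even' _ _ _ (by ring) (by ring)
  have : t (128 * M + 134) = t (64 * M + 67) + t (64 * M + 66) :=
    t_even' _ _ _ (by ring) (by ring)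
  have : t (256 * M + 270) = t (128 * M + 135) + t (128 * M + 134) :=
    t_even' _ _ _ (by ring) (by ring)
  have : t (512 * M + 542) = t (256 * M + 271) + t (256 * M + 270) :=
    t_even' _ _ _ (by ring) (by ring)
  have : t (2 * M + 3) = -2 * t (1 * M + 1) :=
    t_odd' _ _ (by ring)
  have : t (4 * M + 6) = t (2 * M + 3) + t (2 * M + 2) :=
    t_even' _ _ _ (by ring) (by ring)
  have : t (8 * M + 13) = -2 * t (4 * M + 6) :=
    t_odd' _ _ (by ring)
  have : t (4 * M + 5) = -2 * t (2 * M + 2) :=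
    t_odd' _ _ (by ring)
  have : t (8 * M + 12) = t (4 * M + 6) + t (4 * M + 5) :=
    t_even' _ _ _ (by ring) (by ring)
  have : t (16 * M + 26) = t (8 * M + 13) + t (8 * M + 12) :=
    t_even' _ _ _ (by ring) (by ring)
  have : t (16 * M + 25) = -2 * t (8 * M + 12) :=
    t_odd' _ _ (by ring)
  have : t (32 * M + 52) = t (16 * M + 26) + t (16 * M + 25) :=
    t_even' _ _ _ (by ring) (by ring)
  have : t (32 * M + 51) = -2 * t (16 * M + 25) :=
    t_odd' _ _ (by ring)
  have : t (64 * M + 104) = t (32 * M + 52) + t (32 * M + 51) :=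
    t_even' _ _ _ (by ring) (by ring)
  have : t (128 * M + 209) = -2 * t (64 * M + 104) :=
    t_odd' _ _ (by ring)
  have : t (64 * M + 103) = -2 * t (32 * M + 51) :=
    t_odd' _ _ (by ring)
  have : t (128 * M + 208) = t (64 * M + 104) + t (64 * M + 103) :=
    t_even' _ _ _ (by ring) (by ring)
  have : t (256 * M + 418) = t (128 * M + 209) + t (128 * M + 208) :=
    t_even' _ _ _ (by ring) (by ring)
  have : t (256 * M + 417) = -2 * t (128 * M + 208) :=
    t_odd' _ _ (by ring)
  have : t (512 * M + 836) = t (256 * M + 418) + t (256 * M + 417) :=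
    t_even' _ _ _ (by ring) (by ring)
  omega

lemma block (n : ℕ) : ∃ k, 512 * (n + 1) ≤ k ∧ k < 512 * (n + 2) ∧ t (3 * k) ≤ 0 := by
  have h := rel (3 * n + 2)
  by_contra hc
  push Not at hc
  have h1 := hc (512 * n + 512) (by omega) (by omega)
  have h2 := hc (512 * n + 522) (by omega) (by omega)
  have h3 := hc (512 * n + 620) (by omega) (by omega)
  rw [show 3 * (512 * n + 512) = 512 * (3 * n + 2) + 512 by ring] at h1
  rw [show 3 * (512 * n + 522) = 512 * (3 * n + 2) + 542 by ring] at h2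
  rw [show 3 * (512 * n + 620) = 512 * (3 * n + 2) + 836 by ring] at h3
  omega

lemma count (N : ℕ) : N ≤ #{k ∈ range (512 * (N + 1)) | t (3 * k) ≤ 0} := by
  induction N with
  | zero => exact Nat.zero_le _
  | succ N ih =>
    obtain ⟨k, h1, h2, h3⟩ := block N
    refine ih.trans_lt (card_lt_card ((ssubset_iff_of_subset (filter_subset_filter _
      (range_mono (by omega)))).mpr ⟨k, mem_filter.mpr ⟨mem_range.mpr h2, h3⟩, fun h => ?_⟩))
    have := mem_range.mp (mem_filter.mp h).1
    omega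

theorem main :
    ¬ Tendsto (fun N : ℕ => (#{k ∈ range N | t (3 * k) ≤ 0} : ℝ) / N) atTop (𝓝 0) := by
  intro h
  obtain ⟨N, hN⟩ := eventually_atTop.mp (h.eventually (gt_mem_nhds (show (0 : ℝ) < 1 / 1024 by
    norm_num)))
  have h1 := hN (512 * (N + 1 + 1)) (by omega)
  have h2 : ((N + 1 : ℕ) : ℝ) ≤ _ := Nat.cast_le.mpr (count (N + 1))
  rw [div_lt_iff₀ (by positivity)] at h1
  have h3 : (0 : ℝ) ≤ N := N.cast_nonneg
  push_cast at h1 h2
  linarith

end Pool.Agent.H.MP_58bd73_nt
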